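import Mathlib
import Pool.Agent.Q264.TMCong

/-!
# Doubling congruences for the Thue-Morse-twisted Fibonacci sequence: even exponents

`h_{2 (2^{2n} - 3)} ≡ 0` modulo `h_{2^{2n} - 3}` for every `n ≥ 1`.

The proof: `(|h_{4m}|, |h_{4m+1}|)` is obtained from `(0, 1)` by the product of the matrices `((0, 1), (1, 1))` and
`((2, 1), (1, 1))` along the signs `(-1)^{v_2(i)}`, `1 ≤ i ≤ m`. If `X_j` is the product of the first `2^j - 1` of them,
then `X_{j+1} = X_j N X_j`, where `N` is the first matrix if `j` is even and the second one if `j` is odd, and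
`|h_{2^{j+2} - 3}|` and `|h_{2 (2^{j+2} - 3)}|` are the last entries of `X_j` and of `X_{j+1}`. For even `j` the latter is
`d (b + c + d)`, with `X_j = ((a, b), (c, d))`.
-/

set_option autoImplicit false

namespace Pool.Agent.Results.MP_36a07b_nt.EvenExponents

/-- the Prouhet-Thue-Morse sequence `t_n = (-1) ^ s_2(n)`, `s_2` the sum of the binary digits -/
def t (n : ℕ) : ℤ := (-1) ^ (Nat.digits 2 n).sum

/-- `h_0 = 0`, `h_1 = 1`, `h_n = t_n h_{n-1} + h_{n-2}` -/
def h : ℕ → ℤ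
  | 0 => 0
  | 1 => 1
  | n + 2 => t (n + 2) * h (n + 1) + h n

theorem h_eq : ∀ n, h n = Q264.TMFib.h n
  | 0 => rfl
  | 1 => rfl
  | n + 2 => by
    rw [h, Q264.TMFib.h, h_eq (n + 1), h_eq n]
    rfl

/-- **Q1.** -/
theorem result : ∀ n : ℕ, 1 ≤ n → h (2 * (2 ^ (2 * n) - 3)) ≡ 0 [ZMOD h (2 ^ (2 * n) - 3)] := by
  intro n hn
  rw [h_eq, h_eq, Int.modEq_zero_iff_dvd]
  exact Q264.TMFib.cong_even n hn

end Pool.Agent.Results.MP_36a07b_nt.EvenExponents
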